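import Mathlib
import Pool.Agent.H205R2.TotalDomNG

set_option autoImplicit false

namespace Pool.Agent.Results.MP_4101c8_co.SumDisproof

open Pool.Agent.H205R2.TotalDomNG

/-- Disproof of Q1. There is no `n₀` such that every connected graph `G` of order `n ≥ n₀` with
`δ*(G) = 4` satisfies `γ_t(G) + γ_t(Gᶜ) ≤ 2 n / 5 + 2`. -/
theorem result : ¬ ∃ n₀ : ℕ, ∀ (V : Type) [Fintype V] (G : SimpleGraph V),
    n₀ ≤ Fintype.card V → G.Connected → deltaStar G = 4 →
      (totalDomNum G : ℝ) + (totalDomNum Gᶜ : ℝ) ≤ 2 * (Fintype.card V : ℝ) / 5 + 2 := by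
  rintro ⟨n₀, h⟩
  have h1 := h (Fin (n₀ + 2) × Bool × Fin 7) (copies (n₀ + 2))ᶜ (by rw [card_V]; omega)
    (compl_connected _ (by omega)) (deltaStar_compl _ (by omega))
  rw [compl_compl, card_V] at h1
  have h2 := totalDomNum_compl (n₀ + 2) (by omega)
  have h3 := totalDomNum_copies (n₀ + 2)
  have h2' : (2 : ℝ) ≤ (totalDomNum (copies (n₀ + 2))ᶜ : ℝ) := by exact_mod_cast h2
  have h3' : 6 * ((n₀ : ℝ) + 2) ≤ (totalDomNum (copies (n₀ + 2)) : ℝ) := by exact_mod_cast h3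
  push_cast at h1
  have h4 : (0 : ℝ) ≤ n₀ := Nat.cast_nonneg _
  linarith

end Pool.Agent.Results.MP_4101c8_co.SumDisproof
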